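import Mathlib

/-!
# An equivelar, fully transitive, self-dual polyhedron without a polarity

The polyhedron has type `{10, 10}`, ten vertices, fifty edges and ten 2-faces. Its vertices are
`A c`, `B c` and its 2-faces are `C c`, `D c`, `c ∈ ℤ / 5`; its edges are the triples `(x, y, e)`,
`x, y ∈ ℤ / 5`, `e = ± 1`. The edge `(x, y, e)` joins `A (y - 2 x + e)` and `B (y + 2 x - e)` and
separates `C (y - x + 2 e)` and `D (y + x - 2 e)`, and all vertices are incident with all 2-faces.
The map `A c ↦ C (2 c)`, `C c ↦ B (2 c)`, `B c ↦ D (2 c)`, `D c ↦ A (2 c)`,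
`(x, y, e) ↦ (-x, 2 y, e)` is a duality of period four. There are one hundred dualities and none of
them has period two.
-/

set_option autoImplicit false

namespace Pool.Agent.Results.MP_1940b6_co.NoPolarity

/-! ### Definitions -/

/-- A flag is a maximal chain. -/
def IsFlag {P : Type} [PartialOrder P] (Φ : Set P) : Prop := IsMaxChain (· ≤ ·) Φ

/-- `P` with the rank function `rk` is an abstract polyhedron: an abstract polytope of rank 3. -/
structure IsPolyhedron (P : Type) [PartialOrder P] (rk : P → ℤ) : Prop where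
  /-- the rank function is strictly monotone -/
  strictMono : ∀ F G : P, F < G → rk F < rk G
  /-- the rank function maps onto `{-1, 0, 1, 2, 3}` -/
  range_eq : Set.range rk = {-1, 0, 1, 2, 3}
  /-- there is a least face, of rank `-1` -/
  least : ∃ F : P, rk F = -1 ∧ ∀ G : P, F ≤ G
  /-- there is a greatest face, of rank `3` -/
  greatest : ∃ F : P, rk F = 3 ∧ ∀ G : P, G ≤ F
  /-- every flag has exactly five elements -/
  flag_card : ∀ Φ : Set P, IsFlag Φ → Φ.encard = 5
  /-- the diamond condition -/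
  diamond : ∀ (j : ℤ) (F G : P), F ≤ G → rk F = j - 1 → rk G = j + 1 →
    {H : P | rk H = j ∧ F ≤ H ∧ H ≤ G}.encard = 2
  /-- strong flag-connectedness: any two flags `Φ`, `Ψ` are joined by a sequence of flags, each
  differing from the next in exactly one face and each containing `Φ ∩ Ψ` -/
  connected : ∀ Φ Ψ : Set P, IsFlag Φ → IsFlag Ψ →
    Relation.ReflTransGen (fun A B : Set P => IsFlag A ∧ IsFlag B ∧ (A \ B).encard = 1 ∧
      (B \ A).encard = 1 ∧ Φ ∩ Ψ ⊆ A ∧ Φ ∩ Ψ ⊆ B) Φ Ψ

/-- The section `G / F` is a `p`-gon: besides `F` and `G` it consists of `p` different elements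
`a i` of rank `rk F + 1` and `p` different elements `b i` of rank `rk F + 2`, `i ∈ ℤ / p`, and
`b j` is incident with `a j` and `a (j + 1)` only. -/
def IsGon {P : Type} [PartialOrder P] (rk : P → ℤ) (p : ℕ) (F G : P) : Prop :=
  ∃ a b : ZMod p → P, Function.Injective a ∧ Function.Injective b ∧
    (∀ i, rk (a i) = rk F + 1) ∧ (∀ i, rk (b i) = rk F + 2) ∧
    (∀ i j, a i ≤ b j ↔ i = j ∨ i = j + 1) ∧
    Set.Icc F G = {F, G} ∪ Set.range a ∪ Set.range b

/-- Equivelar of type `{p, q}`: every 2-face is a `p`-gon and every vertex-figure is a `q`-gon. -/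
def IsEquivelar {P : Type} [PartialOrder P] (rk : P → ℤ) (p q : ℕ) : Prop :=
  3 ≤ p ∧ 3 ≤ q ∧ (∀ F G : P, rk F = -1 → rk G = 2 → IsGon rk p F G) ∧
    ∀ F G : P, rk F = 0 → rk G = 3 → IsGon rk q F G

/-- The automorphism group is transitive on the faces of each rank. -/
def IsFullyTransitive {P : Type} [PartialOrder P] (rk : P → ℤ) : Prop :=
  ∀ F G : P, rk F = rk G → ∃ φ : P ≃ P, (∀ A B : P, A ≤ B ↔ φ A ≤ φ B) ∧ φ F = G

/-- A duality is an order reversing bijection. -/
def IsDuality {P : Type} [PartialOrder P] (δ : P ≃ P) : Prop :=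
  ∀ F G : P, F ≤ G ↔ δ G ≤ δ F

/-! ### The example -/

/-- the faces -/
inductive Pt : Type
  | bot : Pt
  | vt (s : Bool) (c : ZMod 5) : Pt
  | ed (x y : ZMod 5) (e : Bool) : Pt
  | fc (t : Bool) (c : ZMod 5) : Pt
  | top : Pt
  deriving DecidableEq

/-- the sign -/
def sg : Bool → ZMod 5
  | true => 1
  | false => 4

/-- the end points of the edge -/
def vv (x y : ZMod 5) (e s : Bool) : ZMod 5 :=
  match s with
  | false => y - 2 * x + sg e
  | true => y + 2 * x - sg e

/-- the faces at the edge -/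
def ff (x y : ZMod 5) (e t : Bool) : ZMod 5 :=
  match t with
  | false => y - x + 2 * sg e
  | true => y + x - 2 * sg e

namespace Pt

/-- the order -/
def le : Pt → Pt → Prop
  | bot, _ => True
  | vt _ _, bot => False
  | vt s c, vt s' c' => s = s' ∧ c = c'
  | vt s c, ed x y e => vv x y e s = c
  | vt _ _, fc _ _ => True
  | vt _ _, top => True
  | ed _ _ _, bot => False
  | ed _ _ _, vt _ _ => False
  | ed x y e, ed x' y' e' => x = x' ∧ y = y' ∧ e = e'
  | ed x y e, fc t c => ff x y e t = c
  | ed _ _ _, top => True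
  | fc _ _, bot => False
  | fc _ _, vt _ _ => False
  | fc _ _, ed _ _ _ => False
  | fc s c, fc s' c' => s = s' ∧ c = c'
  | fc _ _, top => True
  | top, top => True
  | top, _ => False

instance : PartialOrder Pt where
  le := le
  le_refl a := by cases a <;> simp [le]
  le_trans a b c h1 h2 := by
    cases a <;> cases b <;> cases c <;> simp_all [le]
  le_antisymm a b h1 h2 := by
    cases a <;> cases b <;> simp_all [le]

theorem le_def (a b : Pt) : a ≤ b ↔ le a b := Iff.rfl

/-- the rank -/
def rk : Pt → ℤ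
  | bot => -1
  | vt _ _ => 0
  | ed _ _ _ => 1
  | fc _ _ => 2
  | top => 3

end Pt

open Pt

/-- the flags -/
structure Fl : Type where
  x : ZMod 5
  y : ZMod 5
  e : Bool
  s : Bool
  t : Bool
  deriving DecidableEq

namespace Fl

/-- the vertex -/
def v (f : Fl) : Pt := vt f.s (vv f.x f.y f.e f.s)
/-- the edge -/
def d (f : Fl) : Pt := ed f.x f.y f.e
/-- the face -/
def w (f : Fl) : Pt := fc f.t (ff f.x f.y f.e f.t)

/-- the set -/
def set (f : Fl) : Set Pt := {bot, f.v, f.d, f.w, top}

/-- The coordinates of the edge with sign `e` incident with the vertex `(s, c)` and the face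
`(t, d)`. -/
def sol (s t : Bool) (c d : ZMod 5) (e : Bool) : ZMod 5 × ZMod 5 :=
  match s, t with
  | false, false => (d - c - sg e, 2 * d - c + 2 * sg e)
  | false, true => (2 * d - 2 * c + sg e, 4 * d + 2 * c + sg e)
  | true, false => (2 * c - 2 * d + sg e, 2 * c + 4 * d + 4 * sg e)
  | true, true => (c - d - sg e, 2 * d - c + 3 * sg e)

theorem sol_iff : ∀ (s t : Bool) (c d : ZMod 5) (e : Bool) (x y : ZMod 5),
    (vv x y e s = c ∧ ff x y e t = d) ↔ (x = (sol s t c d e).1 ∧ y = (sol s t c d e).2) := by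
  decide +kernel

/-- the adjacent flags -/
def r (j : Fin 3) (f : Fl) : Fl :=
  match j with
  | 0 => ⟨f.x, f.y, f.e, !f.s, f.t⟩
  | 1 => ⟨(sol f.s f.t (vv f.x f.y f.e f.s) (ff f.x f.y f.e f.t) (!f.e)).1,
      (sol f.s f.t (vv f.x f.y f.e f.s) (ff f.x f.y f.e f.t) (!f.e)).2, !f.e, f.s, f.t⟩
  | 2 => ⟨f.x, f.y, f.e, f.s, !f.t⟩

/-- the face of rank `j` -/
def comp (j : Fin 3) (f : Fl) : Pt :=
  match j with
  | 0 => f.v
  | 1 => f.d
  | 2 => f.w

theorem sol_spec (s t : Bool) (c d : ZMod 5) (e : Bool) :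
    vv (sol s t c d e).1 (sol s t c d e).2 e s = c ∧ ff (sol s t c d e).1 (sol s t c d e).2 e t = d :=
  (sol_iff s t c d e _ _).2 ⟨rfl, rfl⟩

theorem comp_r {i j : Fin 3} (h : i ≠ j) (f : Fl) : comp i (r j f) = comp i f := by
  obtain ⟨x, y, e, s, t⟩ := f
  have h1 := sol_spec s t (vv x y e s) (ff x y e t) (!e)
  fin_cases i <;> fin_cases j <;> first | (exact absurd rfl h) | simp [comp, r, v, d, w, h1]

theorem comp_r_ne (j : Fin 3) (f : Fl) : comp j (r j f) ≠ comp j f := by
  obtain ⟨x, y, e, s, t⟩ := f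
  fin_cases j
  · cases s <;> simp [comp, r, v]
  · cases e <;> simp [comp, r, d]
  · cases t <;> simp [comp, r, w]

theorem r_unique {j : Fin 3} {f g : Fl} (h : ∀ i, i ≠ j → comp i g = comp i f) :
    g = f ∨ g = r j f := by
  obtain ⟨x, y, e, s, t⟩ := f
  obtain ⟨x', y', e', s', t'⟩ := g
  fin_cases j
  · have h1 := h 1 (by decide)
    have h2 := h 2 (by decide)
    simp only [comp, d, w, Pt.ed.injEq, Pt.fc.injEq] at h1 h2
    obtain ⟨rfl, rfl, rfl⟩ := h1
    obtain ⟨rfl, -⟩ := h2
    cases s <;> cases s' <;> simp [r]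
  · have h1 := h 0 (by decide)
    have h2 := h 2 (by decide)
    simp only [comp, v, w, Pt.vt.injEq, Pt.fc.injEq] at h1 h2
    obtain ⟨rfl, h1⟩ := h1
    obtain ⟨rfl, h2⟩ := h2
    by_cases he : e' = e
    · subst he
      left
      have a := (sol_iff s' t' (vv x y e' s') (ff x y e' t') e' x' y').1 ⟨h1, h2⟩
      have b := (sol_iff s' t' (vv x y e' s') (ff x y e' t') e' x y).1 ⟨rfl, rfl⟩
      rw [Fl.mk.injEq]
      exact ⟨a.1.trans b.1.symm, a.2.trans b.2.symm, rfl, rfl, rfl⟩
    · right
      have he' : e' = !e := by cases e <;> cases e' <;> simp_all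
      subst he'
      have a := (sol_iff s' t' (vv x y e s') (ff x y e t') (!e) x' y').1 ⟨h1, h2⟩
      simp only [r, Fl.mk.injEq]
      exact ⟨a.1, a.2, trivial, trivial, trivial⟩
  · have h1 := h 0 (by decide)
    have h2 := h 1 (by decide)
    simp only [comp, d, v, Pt.ed.injEq, Pt.vt.injEq] at h1 h2
    obtain ⟨rfl, rfl, rfl⟩ := h2
    obtain ⟨rfl, -⟩ := h1
    cases t <;> cases t' <;> simp [r]

theorem ext_comp {f g : Fl} (h : ∀ i, comp i g = comp i f) : g = f := by
  rcases r_unique (j := 0) (fun i _ => h i) with h1 | h1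
  · exact h1
  · exact absurd (by rw [← h1]; exact h 0) (comp_r_ne 0 f)

theorem r_r (j : Fin 3) (f : Fl) : r j (r j f) = f := by
  rcases r_unique (j := j) (f := r j f) (g := f) (fun i hi => (comp_r hi f).symm) with h | h
  · exact absurd (congrArg (comp j) h.symm) (comp_r_ne j f)
  · exact h.symm

theorem rk_comp (j : Fin 3) (f : Fl) : Pt.rk (comp j f) = (j : ℕ) := by
  fin_cases j <;> rfl

theorem v_le_d (f : Fl) : f.v ≤ f.d := by
  show Pt.le _ _
  simp [Fl.v, Fl.d, Pt.le]

theorem d_le_w (f : Fl) : f.d ≤ f.w := by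
  show Pt.le _ _
  simp [Fl.w, Fl.d, Pt.le]

theorem exists_of {a b c : Pt} (ha : Pt.rk a = 0) (hb : Pt.rk b = 1) (hc : Pt.rk c = 2)
    (hab : a ≤ b) (hbc : b ≤ c) : ∃ f : Fl, f.v = a ∧ f.d = b ∧ f.w = c := by
  cases a <;> simp [Pt.rk] at ha
  cases b <;> simp [Pt.rk] at hb
  cases c <;> simp [Pt.rk] at hc
  rename_i s c x y e t d
  change vv x y e s = c at hab
  change ff x y e t = d at hbc
  exact ⟨⟨x, y, e, s, t⟩, by simp [Fl.v, hab], rfl, by simp [Fl.w, hbc]⟩

theorem mem_set (f : Fl) (a : Pt) :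
    a ∈ f.set ↔ a = bot ∨ (∃ j, a = comp j f) ∨ a = top := by
  simp only [Fl.set, Set.mem_insert_iff, Set.mem_singleton_iff]
  constructor
  · rintro (h | h | h | h | h)
    · exact Or.inl h
    · exact Or.inr (Or.inl ⟨0, h⟩)
    · exact Or.inr (Or.inl ⟨1, h⟩)
    · exact Or.inr (Or.inl ⟨2, h⟩)
    · exact Or.inr (Or.inr h)
  · rintro (h | ⟨j, h⟩ | h)
    · exact Or.inl h
    · fin_cases j
      · exact Or.inr (Or.inl h)
      · exact Or.inr (Or.inr (Or.inl h))
      · exact Or.inr (Or.inr (Or.inr (Or.inl h)))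
    · exact Or.inr (Or.inr (Or.inr (Or.inr h)))

theorem comp_mem (f : Fl) (j : Fin 3) : comp j f ∈ f.set := (mem_set f _).2 (Or.inr (Or.inl ⟨j, rfl⟩))

theorem bot_mem (f : Fl) : bot ∈ f.set := (mem_set f _).2 (Or.inl rfl)

theorem top_mem (f : Fl) : top ∈ f.set := (mem_set f _).2 (Or.inr (Or.inr rfl))

theorem comp_mem_iff (f g : Fl) (j : Fin 3) : comp j f ∈ g.set ↔ comp j f = comp j g := by
  refine ⟨fun h => ?_, fun h => h ▸ comp_mem g j⟩
  have h0 := rk_comp j f
  rcases (mem_set g _).1 h with h | ⟨i, h⟩ | h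
  · rw [h] at h0
    fin_cases j <;> simp [Pt.rk] at h0
  · have h1 := rk_comp i g
    rw [← h, h0] at h1
    have : j = i := Fin.ext (by exact_mod_cast h1)
    rw [h, this]
  · rw [h] at h0
    fin_cases j <;> simp [Pt.rk] at h0

theorem encard_set (f : Fl) : f.set.encard = 5 := by
  have h : f.set = ((({bot, f.v, f.d, f.w, top} : Finset Pt)) : Set Pt) := by
    simp [Fl.set]
  rw [h, Set.encard_coe_eq_coe_finsetCard]
  have : ({bot, f.v, f.d, f.w, top} : Finset Pt).card = 5 := by
    rw [Finset.card_insert_of_notMem, Finset.card_insert_of_notMem, Finset.card_insert_of_notMem,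
      Finset.card_insert_of_notMem, Finset.card_singleton]
    all_goals simp [Fl.v, Fl.d, Fl.w]
  rw [this]
  rfl

theorem isChain_set (f : Fl) : IsChain (· ≤ ·) f.set := by
  have h1 : ∀ a : Pt, bot ≤ a := fun a => trivial
  have h2 : ∀ a : Pt, a ≤ top := fun a => by cases a <;> trivial
  have h3 := v_le_d f
  have h4 := d_le_w f
  have h5 := h3.trans h4
  intro a ha b hb hab
  simp only [Fl.set, Set.mem_insert_iff, Set.mem_singleton_iff] at ha hb
  rcases ha with rfl | rfl | rfl | rfl | rfl <;> rcases hb with rfl | rfl | rfl | rfl | rfl <;>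
    first
    | exact Or.inl (h1 _)
    | exact Or.inr (h1 _)
    | exact Or.inl (h2 _)
    | exact Or.inr (h2 _)
    | exact absurd rfl hab
    | exact Or.inl h3
    | exact Or.inr h3
    | exact Or.inl h4
    | exact Or.inr h4
    | exact Or.inl h5
    | exact Or.inr h5

theorem exists_ed (s t : Bool) (c d : ZMod 5) :
    ∃ x y e, vv x y e s = c ∧ ff x y e t = d :=
  ⟨_, _, true, sol_spec s t c d true⟩

theorem chain_subset {Φ : Set Pt} (h : IsChain (· ≤ ·) Φ) : ∃ f : Fl, Φ ⊆ f.set := by
  have hle : ∀ a ∈ Φ, ∀ b ∈ Φ, Pt.rk a ≤ Pt.rk b → a ≤ b := by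
    intro a ha b hb hab
    by_cases e : a = b
    · exact e.le
    rcases h ha hb e with h1 | h1
    · exact h1
    · exfalso
      have h2 : Pt.le b a := h1
      cases a <;> cases b <;> simp_all [Pt.rk, Pt.le]
  -- the possible faces in the chain
  by_cases hE : ∃ x y e, ed x y e ∈ Φ
  · obtain ⟨x, y, e, hE⟩ := hE
    have hs : ∃ s, ∀ s' c', vt s' c' ∈ Φ → s' = s ∧ c' = vv x y e s := by
      by_cases hV : ∃ s c, vt s c ∈ Φ
      · obtain ⟨s, c, hV⟩ := hV
        refine ⟨s, fun s' c' h' => ?_⟩
        have h1 : Pt.le (vt s' c') (ed x y e) := hle _ h' _ hE (by simp [Pt.rk])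
        have h2 : Pt.le (vt s' c') (vt s c) := hle _ h' _ hV (by simp [Pt.rk])
        obtain ⟨rfl, rfl⟩ := h2
        exact ⟨rfl, h1.symm⟩
      · exact ⟨false, fun s' c' h' => absurd ⟨s', c', h'⟩ hV⟩
    have ht : ∃ t, ∀ t' c', fc t' c' ∈ Φ → t' = t ∧ c' = ff x y e t := by
      by_cases hV : ∃ s c, fc s c ∈ Φ
      · obtain ⟨s, c, hV⟩ := hV
        refine ⟨s, fun s' c' h' => ?_⟩
        have h1 : Pt.le (ed x y e) (fc s' c') := hle _ hE _ h' (by simp [Pt.rk])
        have h2 : Pt.le (fc s' c') (fc s c) := hle _ h' _ hV (by simp [Pt.rk])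
        obtain ⟨rfl, rfl⟩ := h2
        exact ⟨rfl, h1.symm⟩
      · exact ⟨false, fun s' c' h' => absurd ⟨s', c', h'⟩ hV⟩
    obtain ⟨s, hs⟩ := hs
    obtain ⟨t, ht⟩ := ht
    refine ⟨⟨x, y, e, s, t⟩, fun a ha => ?_⟩
    cases a with
    | bot => exact bot_mem _
    | top => exact top_mem _
    | vt s' c' =>
      obtain ⟨rfl, rfl⟩ := hs _ _ ha
      exact comp_mem (⟨x, y, e, s', t⟩ : Fl) 0
    | fc t' c' =>
      obtain ⟨rfl, rfl⟩ := ht _ _ ha
      exact comp_mem (⟨x, y, e, s, t'⟩ : Fl) 2
    | ed x' y' e' =>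
      have h1 : Pt.le (ed x' y' e') (ed x y e) := hle _ ha _ hE (by simp [Pt.rk])
      obtain ⟨rfl, rfl, rfl⟩ := h1
      exact comp_mem (⟨x', y', e', s, t⟩ : Fl) 1
  · have hs : ∃ s c, ∀ s' c', vt s' c' ∈ Φ → s' = s ∧ c' = c := by
      by_cases hV : ∃ s c, vt s c ∈ Φ
      · obtain ⟨s, c, hV⟩ := hV
        refine ⟨s, c, fun s' c' h' => ?_⟩
        exact hle _ h' _ hV (by simp [Pt.rk])
      · exact ⟨false, 0, fun s' c' h' => absurd ⟨s', c', h'⟩ hV⟩
    have ht : ∃ t c, ∀ t' c', fc t' c' ∈ Φ → t' = t ∧ c' = c := by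
      by_cases hV : ∃ s c, fc s c ∈ Φ
      · obtain ⟨s, c, hV⟩ := hV
        refine ⟨s, c, fun s' c' h' => ?_⟩
        exact hle _ h' _ hV (by simp [Pt.rk])
      · exact ⟨false, 0, fun s' c' h' => absurd ⟨s', c', h'⟩ hV⟩
    obtain ⟨s, c, hs⟩ := hs
    obtain ⟨t, d, ht⟩ := ht
    obtain ⟨x, y, e, h1, h2⟩ := exists_ed s t c d
    refine ⟨⟨x, y, e, s, t⟩, fun a ha => ?_⟩
    cases a with
    | bot => exact bot_mem _
    | top => exact top_mem _
    | vt s' c' =>
      obtain ⟨rfl, rfl⟩ := hs _ _ ha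
      have := comp_mem (⟨x, y, e, s', t⟩ : Fl) 0
      simp only [comp, Fl.v, h1] at this
      exact this
    | fc t' c' =>
      obtain ⟨rfl, rfl⟩ := ht _ _ ha
      have := comp_mem (⟨x, y, e, s, t'⟩ : Fl) 2
      simp only [comp, Fl.w, h2] at this
      exact this
    | ed x' y' e' => exact absurd ⟨x', y', e', ha⟩ hE

theorem isFlag_iff (Φ : Set Pt) : IsFlag Φ ↔ ∃ f : Fl, Φ = f.set := by
  constructor
  · intro h
    obtain ⟨f, hf⟩ := chain_subset h.1
    exact ⟨f, h.2 (isChain_set f) hf⟩
  · rintro ⟨f, rfl⟩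
    refine ⟨isChain_set f, fun t ht hft => ?_⟩
    obtain ⟨g, hg⟩ := chain_subset ht
    have h1 : f.set ⊆ g.set := hft.trans hg
    have h2 : f.set = g.set := by
      refine Set.Finite.eq_of_subset_of_encard_le (s := f.set) ?_ h1 ?_
      · rw [← Set.encard_lt_top_iff, encard_set]
        decide
      · rw [encard_set, encard_set]
    exact Set.Subset.antisymm hft (hg.trans h2.symm.subset)

/-! ### Connectedness -/

/-- `g` is reached from `f` by changing faces of the ranks in `S` -/
def Reach (S : Set (Fin 3)) : Fl → Fl → Prop :=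
  Relation.ReflTransGen fun a b => ∃ j ∈ S, b = r j a

theorem Reach.symm {S : Set (Fin 3)} {f g : Fl} (h : Reach S f g) : Reach S g f := by
  induction h with
  | refl => exact Relation.ReflTransGen.refl
  | tail _ hab ih =>
    obtain ⟨j, hj, rfl⟩ := hab
    exact Relation.ReflTransGen.head ⟨j, hj, (r_r j _).symm⟩ ih

theorem Reach.mono {S T : Set (Fin 3)} (hST : S ⊆ T) {f g : Fl} (h : Reach S f g) :
    Reach T f g := by
  induction h with
  | refl => exact Relation.ReflTransGen.refl
  | tail _ hab ih =>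
    obtain ⟨j, hj, rfl⟩ := hab
    exact Relation.ReflTransGen.tail ih ⟨j, hST hj, rfl⟩

theorem Reach.one {S : Set (Fin 3)} {j : Fin 3} (hj : j ∈ S) (f : Fl) : Reach S f (r j f) :=
  Relation.ReflTransGen.single ⟨j, hj, rfl⟩

/-- alternating words -/
def alt (i j : Fin 3) : ℕ → Fl → Fl
  | 0, f => f
  | k + 1, f => alt j i k (r i f)

theorem reach_alt (i j : Fin 3) (k : ℕ) (f : Fl) : Reach {i, j} f (alt i j k f) := by
  induction k generalizing i j f with
  | zero => exact Relation.ReflTransGen.refl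
  | succ k ih =>
    refine Relation.ReflTransGen.trans (Reach.one (Set.mem_insert i _) f) ?_
    have := ih j i (r i f)
    rwa [Set.pair_comm] at this

/-- the base flag of a vertex -/
def rootV (s : Bool) (c : ZMod 5) : Fl :=
  match s with
  | false => ⟨0, c - 1, true, false, false⟩
  | true => ⟨0, c + 1, true, true, false⟩

/-- the base flag of a face -/
def rootF (t : Bool) (c : ZMod 5) : Fl :=
  match t with
  | false => ⟨0, c - 2, true, false, false⟩
  | true => ⟨0, c + 2, true, false, true⟩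

theorem star : ∀ (x y : ZMod 5) (e s t : Bool), ∃ k : Fin 20,
    alt 1 2 k ⟨x, y, e, s, t⟩ = rootV s (vv x y e s) := by
  decide +kernel

theorem costar : ∀ (x y : ZMod 5) (e s t : Bool), ∃ k : Fin 20,
    alt 0 1 k ⟨x, y, e, s, t⟩ = rootF t (ff x y e t) := by
  decide +kernel

theorem reach_v {f g : Fl} (h : f.v = g.v) : Reach {1, 2} f g := by
  obtain ⟨k, hk⟩ := star f.x f.y f.e f.s f.t
  obtain ⟨l, hl⟩ := star g.x g.y g.e g.s g.t
  simp only [Fl.v, Pt.vt.injEq] at h
  have h1 := reach_alt 1 2 k f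
  have h2 := reach_alt 1 2 l g
  have e1 : alt 1 2 k f = rootV f.s (vv f.x f.y f.e f.s) := hk
  have e2 : alt 1 2 l g = rootV g.s (vv g.x g.y g.e g.s) := hl
  rw [e1, h.2, h.1] at h1
  rw [e2] at h2
  exact Relation.ReflTransGen.trans h1 h2.symm

theorem reach_w {f g : Fl} (h : f.w = g.w) : Reach {0, 1} f g := by
  obtain ⟨k, hk⟩ := costar f.x f.y f.e f.s f.t
  obtain ⟨l, hl⟩ := costar g.x g.y g.e g.s g.t
  simp only [Fl.w, Pt.fc.injEq] at h
  have h1 := reach_alt 0 1 k f
  have h2 := reach_alt 0 1 l g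
  have e1 : alt 0 1 k f = rootF f.t (ff f.x f.y f.e f.t) := hk
  have e2 : alt 0 1 l g = rootF g.t (ff g.x g.y g.e g.t) := hl
  rw [e1, h.2, h.1] at h1
  rw [e2] at h2
  exact Relation.ReflTransGen.trans h1 h2.symm

/-- the first entries of the table of words -/
def words : List ℕ :=
  [190062, 760217, 637849, 192230, 191262105, 3, 1, 10073702, 1816985, 768921, 768409, 159334,
  978361, 14043, 731, 3803, 159462, 637337, 760729, 190054, 3510, 438, 950, 421273, 3775385,
  629657, 768953, 157294, 2925, 15213, 7021, 39782, 157286, 637881, 629145, 157414, 767725, 729,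
  14041, 1753, 614, 3686, 1638, 9837, 973209, 186777, 244662, 48054, 225005, 28397, 61165,
  12013, 153, 921, 409, 3481, 11885, 1646, 3694, 3075803, 187, 955, 443, 3515, 9965, 1766, 3814,
  3895022, 3513, 441, 953, 185, 750, 3822, 1774, 14062, 3483, 411, 923, 155, 11993, 61145, 2926,
  15214, 47545, 105369, 236441, 39833, 57044377, 14, 6, 54, 47515, 113593, 244665, 48057, 15206,
  2918, 56166, 7014, 39321, 235929, 104857, 39353, 222937, 26329, 59097, 9945, 48025, 244633,
  113561, 39323, 3782246, 109, 237, 45, 39865, 113049, 244121, 47513, 14774, 2486, 60825, 11673,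
  59110, 9958, 11886, 26342, 112345, 47981, 46809, 11707, 28390, 12014, 12006, 61158, 25, 217,
  9, 3070907, 61030, 11878, 9966, 28262, 59, 11, 219, 3914606, 26214, 159469, 9830, 58982,
  11705, 60857, 2998, 15286, 58990, 9838, 192237, 26222, 7097, 3003, 3001, 15289, 943833,
  157401, 187238, 46830, 57514393, 2489, 2971, 6585, 3693, 621, 13933, 1645, 14747, 2459, 55707,
  6555, 1773, 14061, 749, 3821, 6553, 55705, 2457, 14745, 238, 46, 878, 110, 3774902, 2969,
  2491, 7065, 102, 870, 38, 230]

/-- apply a word, coded with the digits `1`, `2`, `3` in base four -/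
def run : ℕ → ℕ → Fl → Fl
  | 0, _, f => f
  | k + 1, n, f =>
    match n % 4 with
    | 1 => run k (n / 4) (r 0 f)
    | 2 => run k (n / 4) (r 1 f)
    | 3 => run k (n / 4) (r 2 f)
    | _ => f

/-- apply the dual word -/
def run' : ℕ → ℕ → Fl → Fl
  | 0, _, f => f
  | k + 1, n, f =>
    match n % 4 with
    | 1 => run' k (n / 4) (r 2 f)
    | 2 => run' k (n / 4) (r 1 f)
    | 3 => run' k (n / 4) (r 0 f)
    | _ => f

/-- the base flag -/
def f0 : Fl := ⟨0, 0, true, false, false⟩

/-- the number of a flag -/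
def num (f : Fl) : ℕ :=
  f.x.val * 40 + f.y.val * 8 + f.e.toNat * 4 + f.s.toNat * 2 + f.t.toNat

theorem table : ∀ (x y : ZMod 5) (e s t : Bool),
    run 14 (words.getD (num ⟨x, y, e, s, t⟩) 0) f0 = ⟨x, y, e, s, t⟩ ∧
    run' 14 (words.getD (num ⟨x, y, e, s, t⟩) 0) ⟨x, y, e, s, t⟩ ≠ f0 := by
  decide +kernel

theorem reach_run (k n : ℕ) (f : Fl) : Reach Set.univ f (run k n f) := by
  induction k generalizing n f with
  | zero => exact Relation.ReflTransGen.refl
  | succ k ih =>
    unfold run
    split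
    · exact Relation.ReflTransGen.trans (Reach.one (Set.mem_univ _) f) (ih _ _)
    · exact Relation.ReflTransGen.trans (Reach.one (Set.mem_univ _) f) (ih _ _)
    · exact Relation.ReflTransGen.trans (Reach.one (Set.mem_univ _) f) (ih _ _)
    · exact Relation.ReflTransGen.refl

theorem reach_all (f g : Fl) : Reach Set.univ f g := by
  have h : ∀ f : Fl, Reach Set.univ f0 f := by
    intro f
    have h1 := reach_run 14 (words.getD (num f) 0) f0
    have h2 : run 14 (words.getD (num f) 0) f0 = f := (table f.x f.y f.e f.s f.t).1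
    rwa [h2] at h1
  exact Relation.ReflTransGen.trans (h f).symm (h g)

theorem reach (f g : Fl) : Reach {j | comp j f ≠ comp j g} f g := by
  by_cases h1 : f.d = g.d
  · obtain ⟨x, y, e, s, t⟩ := f
    obtain ⟨x', y', e', s', t'⟩ := g
    simp only [Fl.d, Pt.ed.injEq] at h1
    obtain ⟨rfl, rfl, rfl⟩ := h1
    set S : Set (Fin 3) :=
      {j | comp j (⟨x, y, e, s, t⟩ : Fl) ≠ comp j (⟨x, y, e, s', t'⟩ : Fl)} with hS
    have m0 : s ≠ s' → (0 : Fin 3) ∈ S := by
      intro h h'
      simp only [comp, Fl.v, Pt.vt.injEq] at h'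
      exact h h'.1
    have m2 : t ≠ t' → (2 : Fin 3) ∈ S := by
      intro h h'
      simp only [comp, Fl.w, Pt.fc.injEq] at h'
      exact h h'.1
    have a : Reach S ⟨x, y, e, s, t⟩ ⟨x, y, e, s', t⟩ := by
      by_cases h : s = s'
      · subst h; exact Relation.ReflTransGen.refl
      · have := Reach.one (m0 h) ⟨x, y, e, s, t⟩
        have h' : (!s) = s' := by cases s <;> cases s' <;> simp_all
        simpa [r, h'] using this
    have b : Reach S ⟨x, y, e, s', t⟩ ⟨x, y, e, s', t'⟩ := by
      by_cases h : t = t'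
      · subst h; exact Relation.ReflTransGen.refl
      · have := Reach.one (m2 h) ⟨x, y, e, s', t⟩
        have h' : (!t) = t' := by cases t <;> cases t' <;> simp_all
        simpa [r, h'] using this
    exact Relation.ReflTransGen.trans a b
  · by_cases h0 : f.v = g.v
    · by_cases h2 : f.w = g.w
      · rcases r_unique (j := 1) (f := f) (g := g) (by
          intro i hi
          fin_cases i
          · exact h0.symm
          · exact absurd rfl hi
          · exact h2.symm) with h | h
        · exact absurd (by rw [h]) h1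
        · rw [h]
          exact Reach.one (by
            show comp 1 f ≠ comp 1 (r 1 f)
            exact (comp_r_ne 1 f).symm) f
      · refine Reach.mono ?_ (reach_v h0)
        rintro j (rfl | rfl)
        · exact h1
        · exact h2
    · by_cases h2 : f.w = g.w
      · refine Reach.mono ?_ (reach_w h2)
        rintro j (rfl | rfl)
        · exact h0
        · exact h1
      · refine Reach.mono ?_ (reach_all f g)
        intro j _
        fin_cases j
        · exact h0
        · exact h1
        · exact h2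

/-! ### It is a polyhedron -/

theorem le_top' (a : Pt) : a ≤ top := by cases a <;> trivial

theorem bot_le' (a : Pt) : bot ≤ a := trivial

theorem adj_r (j : Fin 3) (f : Fl) : (f.set \ (r j f).set).encard = 1 := by
  have : f.set \ (r j f).set = {comp j f} := by
    ext a
    constructor
    · rintro ⟨h1, h2⟩
      rcases (mem_set f a).1 h1 with h | ⟨i, h⟩ | h
      · exact absurd (h ▸ bot_mem _) h2
      · by_cases hi : i = j
        · rw [h, hi]; rfl
        · exfalso
          apply h2
          rw [h, ← comp_r hi f]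
          exact comp_mem _ _
      · exact absurd (h ▸ top_mem _) h2
    · rintro rfl
      refine ⟨comp_mem f j, fun h => ?_⟩
      rw [comp_mem_iff] at h
      exact comp_r_ne j f h.symm
  rw [this, Set.encard_singleton]

theorem Reach.comp_eq {S : Set (Fin 3)} {f g : Fl} (h : Reach S f g) :
    ∀ j, j ∉ S → comp j g = comp j f := by
  induction h with
  | refl => exact fun _ _ => rfl
  | tail _ hab ih =>
    obtain ⟨j, hj, rfl⟩ := hab
    intro i hi
    rw [comp_r (by rintro rfl; exact hi hj), ih i hi]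

theorem inter_subset {f g h : Fl} (hh : Reach {j | comp j f ≠ comp j g} f h) :
    f.set ∩ g.set ⊆ h.set := by
  rintro a ⟨h1, h2⟩
  rcases (mem_set f a).1 h1 with e | ⟨i, e⟩ | e
  · exact e ▸ bot_mem _
  · rw [e, comp_mem_iff] at h2
    have := hh.comp_eq i (by simpa using h2)
    rw [e, ← this]
    exact comp_mem _ _
  · exact e ▸ top_mem _

theorem isFlag_set (f : Fl) : IsFlag f.set := (isFlag_iff _).2 ⟨f, rfl⟩

theorem path {f g : Fl} (h : Fl) (hh : Reach {j | comp j f ≠ comp j g} f h) :
    Relation.ReflTransGen (fun A B : Set Pt => IsFlag A ∧ IsFlag B ∧ (A \ B).encard = 1 ∧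
      (B \ A).encard = 1 ∧ f.set ∩ g.set ⊆ A ∧ f.set ∩ g.set ⊆ B) f.set h.set := by
  induction hh with
  | refl => exact Relation.ReflTransGen.refl
  | @tail b c hb hbc ih =>
    refine Relation.ReflTransGen.tail ih ?_
    have hc := inter_subset (Relation.ReflTransGen.tail hb hbc)
    have hb' := inter_subset hb
    obtain ⟨j, hj, rfl⟩ := hbc
    refine ⟨isFlag_set _, isFlag_set _, adj_r j b, ?_, hb', hc⟩
    have := adj_r j (r j b)
    rwa [r_r] at this

theorem diamond0 (x y : ZMod 5) (e : Bool) :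
    {H : Pt | Pt.rk H = 0 ∧ bot ≤ H ∧ H ≤ ed x y e} =
      {vt false (vv x y e false), vt true (vv x y e true)} := by
  ext H
  simp only [Set.mem_ofPred_eq, Set.mem_insert_iff, Set.mem_singleton_iff, Pt.le_def]
  cases H with
  | vt s c => cases s <;> simp [Pt.rk, Pt.le, eq_comm]
  | _ => simp [Pt.rk]

theorem diamond2 (x y : ZMod 5) (e : Bool) :
    {H : Pt | Pt.rk H = 2 ∧ ed x y e ≤ H ∧ H ≤ top} =
      {fc false (ff x y e false), fc true (ff x y e true)} := by
  ext H
  simp only [Set.mem_ofPred_eq, Set.mem_insert_iff, Set.mem_singleton_iff, Pt.le_def]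
  cases H with
  | fc s c => cases s <;> simp [Pt.rk, Pt.le, eq_comm]
  | _ => simp [Pt.rk]

theorem diamond1 (s t : Bool) (c d : ZMod 5) :
    {H : Pt | Pt.rk H = 1 ∧ vt s c ≤ H ∧ H ≤ fc t d} =
      {ed (sol s t c d false).1 (sol s t c d false).2 false,
        ed (sol s t c d true).1 (sol s t c d true).2 true} := by
  ext H
  simp only [Set.mem_ofPred_eq, Set.mem_insert_iff, Set.mem_singleton_iff, Pt.le_def]
  cases H with
  | ed x y e =>
    have := sol_iff s t c d e x y
    cases e <;> simp [Pt.rk, Pt.le, this]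
  | _ => simp [Pt.rk]

theorem isPolyhedron : IsPolyhedron Pt Pt.rk where
  strictMono F G h := by
    have h1 : Pt.le F G := h.le
    have h2 : F ≠ G := h.ne
    cases F <;> cases G <;> simp_all [Pt.rk, Pt.le]
  range_eq := by
    ext a
    constructor
    · rintro ⟨F, rfl⟩
      cases F <;> simp [Pt.rk]
    · simp only [Set.mem_insert_iff, Set.mem_singleton_iff]
      rintro (rfl | rfl | rfl | rfl | rfl)
      exacts [⟨bot, rfl⟩, ⟨vt false 0, rfl⟩, ⟨ed 0 0 false, rfl⟩, ⟨fc false 0, rfl⟩, ⟨top, rfl⟩]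
  least := ⟨bot, rfl, fun G => bot_le' G⟩
  greatest := ⟨top, rfl, le_top'⟩
  flag_card Φ h := by
    obtain ⟨f, rfl⟩ := (isFlag_iff Φ).1 h
    exact encard_set f
  diamond j F G hFG hF hG := by
    cases F with
    | bot =>
      have hj : j = 0 := by simp only [Pt.rk] at hF; omega
      subst hj
      cases G with
      | ed x y e =>
        rw [diamond0]
        exact Set.encard_pair (by simp)
      | _ => simp [Pt.rk] at hG
    | vt s c =>
      have hj : j = 1 := by simp only [Pt.rk] at hF; omega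
      subst hj
      cases G with
      | fc t d =>
        rw [diamond1]
        exact Set.encard_pair (by simp)
      | _ => simp [Pt.rk] at hG
    | ed x y e =>
      have hj : j = 2 := by simp only [Pt.rk] at hF; omega
      subst hj
      cases G with
      | top =>
        rw [diamond2]
        exact Set.encard_pair (by simp)
      | _ => simp [Pt.rk] at hG
    | fc t d =>
      have hj : j = 3 := by simp only [Pt.rk] at hF; omega
      subst hj
      cases G <;> simp [Pt.rk] at hG
    | top =>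
      have hj : j = 4 := by simp only [Pt.rk] at hF; omega
      subst hj
      cases G <;> simp [Pt.rk] at hG
  connected Φ Ψ hΦ hΨ := by
    obtain ⟨f, rfl⟩ := (isFlag_iff Φ).1 hΦ
    obtain ⟨g, rfl⟩ := (isFlag_iff Ψ).1 hΨ
    exact path g (reach f g)

/-! ### It is equivelar -/

instance (a b : Pt) : Decidable (Pt.le a b) := by
  cases a <;> cases b <;> unfold Pt.le <;> infer_instance

/-- the power of the product of two of the involutions -/
def cyc (i j : Fin 3) : ℕ → Fl → Fl
  | 0, f => f
  | k + 1, f => cyc i j k (r j (r i f))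

/-- the vertices of a face -/
def fa (t : Bool) (c : ZMod 5) (i : ZMod 10) : Pt := (cyc 0 1 i.val (rootF t c)).v
/-- the edges of a face -/
def fb (t : Bool) (c : ZMod 5) (i : ZMod 10) : Pt := (cyc 0 1 i.val (rootF t c)).d
/-- the edges at a vertex -/
def va (s : Bool) (c : ZMod 5) (i : ZMod 10) : Pt := (cyc 1 2 i.val (rootV s c)).d
/-- the faces at a vertex -/
def vb (s : Bool) (c : ZMod 5) (i : ZMod 10) : Pt := (cyc 1 2 i.val (rootV s c)).w

theorem gonF1 : ∀ (t : Bool) (c : ZMod 5) (i j : ZMod 10),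
    (fa t c i = fa t c j → i = j) ∧ (fb t c i = fb t c j → i = j) ∧
    (Pt.le (fa t c i) (fb t c j) ↔ i = j ∨ i = j + 1) ∧ Pt.le (fb t c i) (fc t c) := by
  decide +kernel

theorem gonF2 : ∀ (t : Bool) (c : ZMod 5) (s : Bool) (d : ZMod 5), ∃ i, fa t c i = vt s d := by
  decide +kernel

theorem gonF3 : ∀ (t : Bool) (c x y : ZMod 5) (e : Bool), ff x y e t = c →
    ∃ i, fb t c i = ed x y e := by
  decide +kernel

theorem gonV1 : ∀ (t : Bool) (c : ZMod 5) (i j : ZMod 10),
    (va t c i = va t c j → i = j) ∧ (vb t c i = vb t c j → i = j) ∧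
    (Pt.le (va t c i) (vb t c j) ↔ i = j ∨ i = j + 1) ∧ Pt.le (vt t c) (va t c i) := by
  decide +kernel

theorem gonV2 : ∀ (t : Bool) (c : ZMod 5) (s : Bool) (d : ZMod 5), ∃ i, vb t c i = fc s d := by
  decide +kernel

theorem gonV3 : ∀ (s : Bool) (c x y : ZMod 5) (e : Bool), vv x y e s = c →
    ∃ i, va s c i = ed x y e := by
  decide +kernel

theorem gon_fc (t : Bool) (c : ZMod 5) : IsGon Pt.rk 10 bot (fc t c) := by
  refine ⟨fa t c, fb t c, fun i j h => (gonF1 t c i j).1 h, fun i j h => (gonF1 t c i j).2.1 h,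
    fun i => rfl, fun i => rfl, fun i j => (gonF1 t c i j).2.2.1, ?_⟩
  ext H
  constructor
  · rintro ⟨-, h⟩
    have h : Pt.le H (fc t c) := h
    cases H with
    | bot => exact Or.inl (Or.inl (Or.inl rfl))
    | vt s d => exact Or.inl (Or.inr (gonF2 t c s d))
    | ed x y e => exact Or.inr (gonF3 t c x y e h)
    | fc s d =>
      obtain ⟨rfl, rfl⟩ := h
      exact Or.inl (Or.inl (Or.inr rfl))
    | top => exact h.elim
  · rintro (((rfl | rfl) | ⟨i, rfl⟩) | ⟨i, rfl⟩)
    · exact ⟨le_rfl, bot_le' _⟩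
    · exact ⟨bot_le' _, le_rfl⟩
    · exact ⟨bot_le' _, trivial⟩
    · exact ⟨bot_le' _, (gonF1 t c i i).2.2.2⟩

theorem gon_vt (s : Bool) (c : ZMod 5) : IsGon Pt.rk 10 (vt s c) top := by
  refine ⟨va s c, vb s c, fun i j h => (gonV1 s c i j).1 h, fun i j h => (gonV1 s c i j).2.1 h,
    fun i => rfl, fun i => rfl, fun i j => (gonV1 s c i j).2.2.1, ?_⟩
  ext H
  constructor
  · rintro ⟨h, -⟩
    have h : Pt.le (vt s c) H := h
    cases H with
    | bot => exact h.elim
    | vt s d =>
      obtain ⟨rfl, rfl⟩ := h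
      exact Or.inl (Or.inl (Or.inl rfl))
    | ed x y e => exact Or.inl (Or.inr (gonV3 s c x y e h))
    | fc t d => exact Or.inr (gonV2 s c t d)
    | top => exact Or.inl (Or.inl (Or.inr rfl))
  · rintro (((rfl | rfl) | ⟨i, rfl⟩) | ⟨i, rfl⟩)
    · exact ⟨le_rfl, le_top' _⟩
    · exact ⟨le_top' _, le_rfl⟩
    · exact ⟨(gonV1 s c i i).2.2.2, le_top' _⟩
    · exact ⟨trivial, le_top' _⟩

theorem isEquivelar : IsEquivelar Pt.rk 10 10 := by
  refine ⟨by norm_num, by norm_num, fun F G hF hG => ?_, fun F G hF hG => ?_⟩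
  · cases F <;> simp [Pt.rk] at hF
    cases G <;> simp [Pt.rk] at hG
    exact gon_fc _ _
  · cases F <;> simp [Pt.rk] at hF
    cases G <;> simp [Pt.rk] at hG
    exact gon_vt _ _

/-! ### The automorphisms -/

/-- two faces are in the same orbit -/
def Same (F G : Pt) : Prop := ∃ φ : Pt ≃ Pt, (∀ A B : Pt, A ≤ B ↔ φ A ≤ φ B) ∧ φ F = G

theorem Same.trans {F G H : Pt} (h1 : Same F G) (h2 : Same G H) : Same F H := by
  obtain ⟨φ, a, rfl⟩ := h1
  obtain ⟨ψ, b, rfl⟩ := h2
  exact ⟨φ.trans ψ, fun A B => (a A B).trans (b _ _), rfl⟩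

theorem same_of {φ ψ : Pt → Pt} (h1 : ∀ F, φ (ψ F) = F) (h2 : ∀ F, ψ (φ F) = F)
    (m1 : ∀ F G, Pt.le F G → Pt.le (φ F) (φ G)) (m2 : ∀ F G, Pt.le F G → Pt.le (ψ F) (ψ G))
    {F G : Pt} (h : φ F = G) : Same F G := by
  refine ⟨⟨φ, ψ, h2, h1⟩, fun A B => ⟨m1 A B, fun h => ?_⟩, h⟩
  have := m2 _ _ h
  simp only [Equiv.coe_fn_mk, h2] at this
  exact this

/-- the translations -/
def tr (a b : ZMod 5) : Pt → Pt
  | bot => bot
  | vt false c => vt false (c + (b - 2 * a))
  | vt true c => vt true (c + (b + 2 * a))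
  | ed x y e => ed (x + a) (y + b) e
  | fc false c => fc false (c + (b - a))
  | fc true c => fc true (c + (b + a))
  | top => top

theorem tr_tr (a b : ZMod 5) (F : Pt) : tr a b (tr (-a) (-b) F) = F := by
  cases F with
  | bot => rfl
  | vt s c => cases s <;> simp only [tr, Pt.vt.injEq, true_and] <;> ring
  | ed x y e => simp [tr]
  | fc s c => cases s <;> simp only [tr, Pt.fc.injEq, true_and] <;> ring
  | top => rfl

theorem tr_le (a b : ZMod 5) (F G : Pt) (h : Pt.le F G) : Pt.le (tr a b F) (tr a b G) := by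
  cases F with
  | bot => trivial
  | top => cases G <;> first | exact h.elim | trivial
  | vt s c =>
    cases G with
    | bot => exact h.elim
    | vt s' c' =>
      obtain ⟨rfl, rfl⟩ := h
      cases s <;> exact ⟨rfl, rfl⟩
    | ed x y e =>
      obtain rfl : vv x y e s = c := h
      cases s <;> simp only [tr, Pt.le, vv] <;> ring
    | fc t d => cases s <;> cases t <;> trivial
    | top => cases s <;> trivial
  | ed x y e =>
    cases G with
    | bot => exact h.elim
    | vt _ _ => exact h.elim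
    | ed x' y' e' =>
      obtain ⟨rfl, rfl, rfl⟩ := h
      exact ⟨rfl, rfl, rfl⟩
    | fc t d =>
      obtain rfl : ff x y e t = d := h
      cases t <;> simp only [tr, Pt.le, ff] <;> ring
    | top => trivial
  | fc t d =>
    cases G with
    | bot => exact h.elim
    | vt _ _ => exact h.elim
    | ed _ _ _ => exact h.elim
    | fc t' d' =>
      obtain ⟨rfl, rfl⟩ := h
      cases t <;> exact ⟨rfl, rfl⟩
    | top => cases t <;> trivial

theorem same_tr (a b : ZMod 5) (F : Pt) : Same F (tr a b F) :=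
  same_of (φ := tr a b) (ψ := tr (-a) (-b)) (tr_tr a b)
    (fun F => by have := tr_tr (-a) (-b) F; rwa [neg_neg, neg_neg] at this)
    (tr_le a b) (tr_le (-a) (-b)) rfl

theorem sg_not (e : Bool) : sg (!e) = - sg e := by cases e <;> decide

/-- the point reflection -/
def ne : Pt → Pt
  | bot => bot
  | vt s c => vt s (-c)
  | ed x y e => ed (-x) (-y) (!e)
  | fc t c => fc t (-c)
  | top => top

theorem ne_ne (F : Pt) : ne (ne F) = F := by cases F <;> simp [ne]

theorem ne_le (F G : Pt) (h : Pt.le F G) : Pt.le (ne F) (ne G) := by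
  cases F with
  | bot => trivial
  | top => cases G <;> first | exact h.elim | trivial
  | vt s c =>
    cases G with
    | bot => exact h.elim
    | vt s' c' =>
      obtain ⟨rfl, rfl⟩ := h
      exact ⟨rfl, rfl⟩
    | ed x y e =>
      obtain rfl : vv x y e s = c := h
      cases s <;> simp only [ne, Pt.le, vv, sg_not] <;> ring
    | fc t d => trivial
    | top => trivial
  | ed x y e =>
    cases G with
    | bot => exact h.elim
    | vt _ _ => exact h.elim
    | ed x' y' e' =>
      obtain ⟨rfl, rfl, rfl⟩ := h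
      exact ⟨rfl, rfl, rfl⟩
    | fc t d =>
      obtain rfl : ff x y e t = d := h
      cases t <;> simp only [ne, Pt.le, ff, sg_not] <;> ring
    | top => trivial
  | fc t d =>
    cases G with
    | bot => exact h.elim
    | vt _ _ => exact h.elim
    | ed _ _ _ => exact h.elim
    | fc t' d' =>
      obtain ⟨rfl, rfl⟩ := h
      exact ⟨rfl, rfl⟩
    | top => trivial

theorem same_ne (F : Pt) : Same F (ne F) := same_of ne_ne ne_ne ne_le ne_le rfl

/-- the square of the duality, up to a reflection -/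
def sq : Pt → Pt
  | bot => bot
  | vt s c => vt (!s) (-c)
  | ed x y e => ed x (-y) e
  | fc t c => fc (!t) (-c)
  | top => top

theorem sq_sq (F : Pt) : sq (sq F) = F := by cases F <;> simp [sq]

theorem sq_le (F G : Pt) (h : Pt.le F G) : Pt.le (sq F) (sq G) := by
  cases F with
  | bot => trivial
  | top => cases G <;> first | exact h.elim | trivial
  | vt s c =>
    cases G with
    | bot => exact h.elim
    | vt s' c' =>
      obtain ⟨rfl, rfl⟩ := h
      exact ⟨rfl, rfl⟩
    | ed x y e =>
      obtain rfl : vv x y e s = c := h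
      cases s <;> simp only [sq, Pt.le, vv, Bool.not_false, Bool.not_true] <;> ring
    | fc t d => trivial
    | top => trivial
  | ed x y e =>
    cases G with
    | bot => exact h.elim
    | vt _ _ => exact h.elim
    | ed x' y' e' =>
      obtain ⟨rfl, rfl, rfl⟩ := h
      exact ⟨rfl, rfl, rfl⟩
    | fc t d =>
      obtain rfl : ff x y e t = d := h
      cases t <;> simp only [sq, Pt.le, ff, Bool.not_false, Bool.not_true] <;> ring
    | top => trivial
  | fc t d =>
    cases G with
    | bot => exact h.elim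
    | vt _ _ => exact h.elim
    | ed _ _ _ => exact h.elim
    | fc t' d' =>
      obtain ⟨rfl, rfl⟩ := h
      exact ⟨rfl, rfl⟩
    | top => trivial

theorem same_sq (F : Pt) : Same F (sq F) := same_of sq_sq sq_sq sq_le sq_le rfl

theorem same_vt (s : Bool) (c d : ZMod 5) : Same (vt s c) (vt s d) := by
  have := same_tr 0 (d - c) (vt s c)
  cases s <;> simpa [tr] using this

theorem same_fc (s : Bool) (c d : ZMod 5) : Same (fc s c) (fc s d) := by
  have := same_tr 0 (d - c) (fc s c)
  cases s <;> simpa [tr] using this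

theorem same_ed (x y x' y' : ZMod 5) (e : Bool) : Same (ed x y e) (ed x' y' e) := by
  have := same_tr (x' - x) (y' - y) (ed x y e)
  simpa [tr] using this

theorem isFullyTransitive : IsFullyTransitive Pt.rk := by
  intro F G h
  show Same F G
  cases F with
  | bot =>
    cases G <;> simp [Pt.rk] at h
    exact same_tr 0 0 bot
  | top =>
    cases G <;> simp [Pt.rk] at h
    exact same_tr 0 0 top
  | vt s c =>
    cases G <;> simp [Pt.rk] at h
    rename_i s' c'
    by_cases hs : s' = s
    · subst hs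
      exact same_vt _ _ _
    · have hs' : s' = !s := by cases s <;> cases s' <;> simp_all
      subst hs'
      exact (same_sq _).trans (same_vt _ _ _)
  | fc s c =>
    cases G <;> simp [Pt.rk] at h
    rename_i s' c'
    by_cases hs : s' = s
    · subst hs
      exact same_fc _ _ _
    · have hs' : s' = !s := by cases s <;> cases s' <;> simp_all
      subst hs'
      exact (same_sq _).trans (same_fc _ _ _)
  | ed x y e =>
    cases G <;> simp [Pt.rk] at h
    rename_i x' y' e'
    by_cases hs : e' = e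
    · subst hs
      exact same_ed _ _ _ _ _
    · have hs' : e' = !e := by cases e <;> cases e' <;> simp_all
      subst hs'
      exact (same_ne _).trans (same_ed _ _ _ _ _)

/-! ### The duality -/

/-- a duality of period four -/
def du : Pt → Pt
  | bot => top
  | vt false c => fc false (2 * c)
  | vt true c => fc true (2 * c)
  | ed x y e => ed (-x) (2 * y) e
  | fc false c => vt true (2 * c)
  | fc true c => vt false (2 * c)
  | top => bot

theorem sixteen : ∀ c : ZMod 5, 2 * (2 * (2 * (2 * c))) = c := by decide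

theorem du_four (F : Pt) : du (du (du (du F))) = F := by
  cases F with
  | bot => rfl
  | top => rfl
  | vt s c => cases s <;> simp [du, sixteen]
  | fc s c => cases s <;> simp [du, sixteen]
  | ed x y e => simp [du, sixteen]

theorem du_vv : ∀ (x y : ZMod 5) (e : Bool),
    ff (-x) (2 * y) e false = 2 * vv x y e false ∧ ff (-x) (2 * y) e true = 2 * vv x y e true ∧
    vv (-x) (2 * y) e true = 2 * ff x y e false ∧ vv (-x) (2 * y) e false = 2 * ff x y e true := by
  decide +kernel

theorem du_le (F G : Pt) (h : Pt.le F G) : Pt.le (du G) (du F) := by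
  cases F with
  | bot => exact le_top' _
  | top => cases G <;> first | exact h.elim | trivial
  | vt s c =>
    cases G with
    | bot => exact h.elim
    | vt s' c' =>
      obtain ⟨rfl, rfl⟩ := h
      exact le_refl (α := Pt) _
    | ed x y e =>
      obtain rfl : vv x y e s = c := h
      have := du_vv x y e
      cases s
      · exact this.1
      · exact this.2.1
    | fc t d => cases s <;> cases t <;> trivial
    | top => exact bot_le' _
  | ed x y e =>
    cases G with
    | bot => exact h.elim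
    | vt _ _ => exact h.elim
    | ed x' y' e' =>
      obtain ⟨rfl, rfl, rfl⟩ := h
      exact ⟨rfl, rfl, rfl⟩
    | fc t d =>
      obtain rfl : ff x y e t = d := h
      have := du_vv x y e
      cases t
      · exact this.2.2.1
      · exact this.2.2.2
    | top => exact bot_le' _
  | fc t d =>
    cases G with
    | bot => exact h.elim
    | vt _ _ => exact h.elim
    | ed _ _ _ => exact h.elim
    | fc t' d' =>
      obtain ⟨rfl, rfl⟩ := h
      exact le_refl (α := Pt) _
    | top => exact bot_le' _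

theorem exists_duality : ∃ δ : Pt ≃ Pt, IsDuality δ := by
  refine ⟨⟨du, fun F => du (du (du F)), fun F => du_four F, fun F => du_four F⟩, fun F G => ?_⟩
  refine ⟨fun h => du_le F G h, fun h => ?_⟩
  have h1 := du_le _ _ (du_le _ _ (du_le _ _ h))
  simp only [Equiv.coe_fn_mk, du_four] at h1
  exact h1

/-! ### There is no polarity -/

theorem rk_le (F : Pt) : -1 ≤ Pt.rk F ∧ Pt.rk F ≤ 3 := by cases F <;> simp [Pt.rk]

theorem dual_flag {δ : Pt ≃ Pt} (hδ : IsDuality δ) (f : Fl) :
    ∃ g : Fl, ∀ j, comp j g = δ (comp j.rev f) := by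
  have hlt : ∀ F G : Pt, F < G → δ G < δ F := by
    intro F G h
    exact lt_of_le_of_ne ((hδ F G).1 h.le) (fun e => h.ne (δ.injective e).symm)
  have h0 : bot < f.v := lt_of_le_of_ne (bot_le' _) (by simp [Fl.v])
  have h1 : f.v < f.d := lt_of_le_of_ne (v_le_d f) (by simp [Fl.v, Fl.d])
  have h2 : f.d < f.w := lt_of_le_of_ne (d_le_w f) (by simp [Fl.w, Fl.d])
  have h3 : f.w < top := lt_of_le_of_ne (le_top' _) (by simp [Fl.w])
  have m := isPolyhedron.strictMono
  have a0 := m _ _ (hlt _ _ h0)
  have a1 := m _ _ (hlt _ _ h1)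
  have a2 := m _ _ (hlt _ _ h2)
  have a3 := m _ _ (hlt _ _ h3)
  have b0 := rk_le (δ bot)
  have b1 := rk_le (δ top)
  obtain ⟨g, e0, e1, e2⟩ := exists_of (a := δ f.w) (b := δ f.d) (c := δ f.v) (by omega) (by omega)
    (by omega) (hlt _ _ h2).le (hlt _ _ h1).le
  refine ⟨g, fun j => ?_⟩
  fin_cases j
  · exact e0
  · exact e1
  · exact e2

theorem no_polarity {δ : Pt ≃ Pt} (hδ : IsDuality δ) (h2 : ∀ F, δ (δ F) = F) : False := by
  choose D hD using dual_flag hδ
  have hr : ∀ j f, D (r j f) = r j.rev (D f) := by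
    intro j f
    rcases r_unique (j := j.rev) (f := D f) (g := D (r j f)) (by
      intro i hi
      rw [hD, hD, comp_r]
      intro h
      apply hi
      rw [← h, Fin.rev_rev]) with h | h
    · exfalso
      have h3 := congrArg (comp j.rev) h
      rw [hD, hD, Fin.rev_rev] at h3
      exact comp_r_ne j f (δ.injective h3)
    · exact h
  have hDD : ∀ f, D (D f) = f := by
    intro f
    apply ext_comp
    intro i
    rw [hD, hD, Fin.rev_rev, h2]
  have hrun : ∀ k n f, D (run k n f) = run' k n (D f) := by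
    intro k
    induction k with
    | zero => intro n f; rfl
    | succ k ih =>
      intro n f
      unfold run run'
      split
      · rw [ih, hr]; rfl
      · rw [ih, hr]; rfl
      · rw [ih, hr]; rfl
      · rfl
  set t := D f0 with ht
  have h3 : run 14 (words.getD (num t) 0) f0 = t := (table t.x t.y t.e t.s t.t).1
  have h4 : run' 14 (words.getD (num t) 0) t ≠ f0 := (table t.x t.y t.e t.s t.t).2
  apply h4
  have h5 := hrun 14 (words.getD (num t) 0) f0
  rw [h3, ← ht] at h5
  rw [← h5, ht, hDD]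

end Fl

instance finite_pt : Finite Pt := by
  let f : Option (Option ((Bool × ZMod 5) ⊕ (ZMod 5 × ZMod 5 × Bool) ⊕ (Bool × ZMod 5))) → Pt :=
    fun
    | none => bot
    | some none => top
    | some (some (Sum.inl (s, c))) => vt s c
    | some (some (Sum.inr (Sum.inl (x, y, e)))) => ed x y e
    | some (some (Sum.inr (Sum.inr (t, c)))) => fc t c
  refine Finite.of_surjective f ?_
  intro F
  cases F with
  | bot => exact ⟨none, rfl⟩
  | top => exact ⟨some none, rfl⟩
  | vt s c => exact ⟨some (some (Sum.inl (s, c))), rfl⟩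
  | ed x y e => exact ⟨some (some (Sum.inr (Sum.inl (x, y, e)))), rfl⟩
  | fc t c => exact ⟨some (some (Sum.inr (Sum.inr (t, c)))), rfl⟩

/-- There is a finite equivelar self-dual polyhedron, of type `{10, 10}`, none of whose dualities
has period two; moreover its automorphism group is transitive on the faces of each rank. -/
theorem result : ∃ (P : Type) (_ : PartialOrder P) (_ : Finite P) (rk : P → ℤ),
    IsPolyhedron P rk ∧ IsEquivelar rk 10 10 ∧ IsFullyTransitive rk ∧
    (∃ δ : P ≃ P, IsDuality δ) ∧ ¬ ∃ δ : P ≃ P, IsDuality δ ∧ ∀ F, δ (δ F) = F :=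
  ⟨Pt, inferInstance, inferInstance, Pt.rk, Fl.isPolyhedron, Fl.isEquivelar, Fl.isFullyTransitive,
    Fl.exists_duality, fun ⟨_, h1, h2⟩ => Fl.no_polarity h1 h2⟩

end Pool.Agent.Results.MP_1940b6_co.NoPolarity
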